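import Pool.Agent.Helper28_TP.StS

/-!
# ATS: seeds can be attached to many boundary points
-/

set_option autoImplicit false

namespace Pool.Agent.TP.H47

open Pool.Agent.TP

/-! ### Abstract part -/

theorem PS_full {α : Type} [DecidableEq α] (V : Finset α) (p : ℝ) :
    PS V (fun _ => p) (fun A => V ⊆ A) = p ^ V.card := by
  classical
  rw [PS_def]
  unfold EX
  rw [Finset.sum_eq_single V]
  · dsimp only
    rw [if_pos (Finset.Subset.refl V), mul_one]
    unfold wt
    rw [Finset.prod_congr rfl (fun a ha => if_pos ha), Finset.prod_const]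
  · intro A hA hne
    have h1 : ¬ V ⊆ A := fun h => hne (Finset.Subset.antisymm (Finset.mem_powerset.1 hA) h)
    dsimp only
    rw [if_neg h1, mul_zero]
  · intro h
    exact absurd (Finset.mem_powerset.2 (Finset.Subset.refl V)) h

theorem PS_full' {α : Type} [DecidableEq α] (W V : Finset α) (h : V ⊆ W) (p : ℝ) :
    PS W (fun _ => p) (fun A => V ⊆ A) = p ^ V.card := by
  rw [← PS_full V p]
  refine PS_marg h _ fun A _ => ?_
  constructor
  · intro h1
    exact Finset.subset_inter h1 (Finset.Subset.refl V)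
  · intro h1
    exact h1.trans Finset.inter_subset_left

/-- If many boxes overlap boundedly, then one of them is full with high probability. -/
theorem noFull {α ι : Type} [DecidableEq α] [DecidableEq ι] (W : Finset α) (p : ℝ)
    (hp0 : 0 < p) (hp1 : p < 1) (box : ι → Finset α) (C Q : ℕ) (hQ : 0 < Q) :
    ∀ (J : ℕ) (T : Finset ι), (∀ x ∈ T, box x ⊆ W) → (∀ x ∈ T, (box x).card = C) →
      (∀ x ∈ T, (T.filter (fun y => ¬ Disjoint (box x) (box y))).card ≤ Q) → J * Q ≤ T.card →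
      PS W (fun _ => p) (fun A => ∀ x ∈ T, ¬ box x ⊆ A) ≤ (1 - p ^ C) ^ J := by
  classical
  have hU : U01 W (fun _ => p) := fun _ _ => ⟨hp0.le, hp1.le⟩
  have hc1 : p ^ C ≤ 1 := pow_le_one₀ hp0.le hp1.le
  intro J
  induction J with
  | zero =>
    intro T _ _ _ _
    rw [pow_zero]
    exact PS_le_one hU _
  | succ J ih =>
    intro T hT hC hO hJ
    have hne : T.Nonempty := by
      rw [← Finset.card_pos]
      have : 0 < (J + 1) * Q := Nat.mul_pos (Nat.succ_pos J) hQ
      omega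
    obtain ⟨x, hx⟩ := hne
    have hcard := Finset.card_filter_add_card_filter_not (s := T)
      (fun y => ¬ Disjoint (box x) (box y))
    have hOx := hO x hx
    have hJ' : J * Q ≤ (T.filter (fun y => ¬ ¬ Disjoint (box x) (box y))).card := by
      have : (J + 1) * Q = J * Q + Q := by ring
      omega
    have hsub : T.filter (fun y => ¬ ¬ Disjoint (box x) (box y)) ⊆ T := Finset.filter_subset _ _
    have h1 := ih (T.filter (fun y => ¬ ¬ Disjoint (box x) (box y)))
      (fun y hy => hT y (hsub hy)) (fun y hy => hC y (hsub hy))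
      (fun y hy => le_trans (Finset.card_le_card (Finset.filter_subset_filter _ hsub))
        (hO y (hsub hy))) hJ'
    have h2 : PS W (fun _ => p) (fun A => ∀ y ∈ T, ¬ box y ⊆ A) ≤
        PS W (fun _ => p) (fun A => ¬ box x ⊆ A ∧
          ∀ y ∈ T.filter (fun y => ¬ ¬ Disjoint (box x) (box y)), ¬ box y ⊆ A) := by
      refine PS_mono hU fun A _ h => ⟨h x hx, fun y hy => h y (hsub hy)⟩
    have h3 : PS W (fun _ => p) (fun A => ¬ box x ⊆ A ∧
          ∀ y ∈ T.filter (fun y => ¬ ¬ Disjoint (box x) (box y)), ¬ box y ⊆ A) =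
        PS W (fun _ => p) (fun A => ¬ box x ⊆ A) *
        PS W (fun _ => p) (fun A => ∀ y ∈ T.filter (fun y => ¬ ¬ Disjoint (box x) (box y)),
          ¬ box y ⊆ A) := by
      refine PS_indep (V := box x) (V' := W \ box x) W (hT x hx) Finset.sdiff_subset
        Finset.disjoint_sdiff _ (fun A _ => ?_) (fun A _ => ?_)
      · rw [not_iff_not]
        exact ⟨fun h => Finset.subset_inter h (Finset.Subset.refl _),
          fun h => h.trans Finset.inter_subset_left⟩
      · refine forall₂_congr fun y hy => ?_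
        rw [not_iff_not]
        have hd : Disjoint (box x) (box y) := not_not.1 (Finset.mem_filter.1 hy).2
        have hyW := hT y (hsub hy)
        refine ⟨fun h => Finset.subset_inter h (Finset.subset_sdiff.2 ⟨hyW, hd.symm⟩),
          fun h => h.trans Finset.inter_subset_left⟩
    have h4 : PS W (fun _ => p) (fun A => ¬ box x ⊆ A) = 1 - p ^ C := by
      rw [PS_not, PS_full' W (box x) (hT x hx), hC x hx]
    rw [h3, h4] at h2
    refine h2.trans ?_
    rw [pow_succ, mul_comm]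
    exact mul_le_mul_of_nonneg_right h1 (by linarith)

/-! ### Boxes -/

variable {k : ℕ}

theorem card_bx (b : Pt k) (m : ℕ) : (bx b m).card = (2 * m + 1) ^ (k + 2) := by
  unfold bx
  rw [Pi.card_Icc]
  have : ∀ i : Fin (k + 2), (Finset.Icc (b i - (m : ℤ)) (b i + m)).card = 2 * m + 1 := by
    intro i
    rw [Int.card_Icc]
    omega
  rw [Finset.prod_congr rfl (fun i _ => this i), Finset.prod_const, Finset.card_univ,
    Fintype.card_fin]

/-- The centre of the new box that belongs to the boundary point `x`. -/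
def ctr (m n : ℕ) (x : Pt k) : Pt k :=
  fun i => if i = 0 then (n : ℤ) + m + 1 else max (m : ℤ) (min (x i) ((n : ℤ) - m))

theorem ctr_zero (m n : ℕ) (x : Pt k) : ctr m n x 0 = (n : ℤ) + m + 1 := if_pos rfl

theorem ctr_ne (m n : ℕ) (x : Pt k) {i : Fin (k + 2)} (hi : i ≠ 0) :
    ctr m n x i = max (m : ℤ) (min (x i) ((n : ℤ) - m)) := if_neg hi

theorem mem_fac {n ρ : ℕ} {x : Pt k} (hx : x ∈ fac k n ρ) :
    (n : ℤ) - ρ < x 0 ∧ x 0 ≤ n ∧ ∀ i, 0 ≤ x i ∧ x i ≤ n := by
  unfold fac lay at hx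
  rw [Finset.mem_filter, Finset.mem_sdiff, mem_bx] at hx
  obtain ⟨⟨h1, _⟩, h2, h3⟩ := hx
  have h4 : ∀ i, x i ≤ n := by
    intro i
    have := h1 i
    rw [Pi.zero_apply, sub_zero] at this
    exact (abs_le.1 this).2
  exact ⟨h2, h4 0, fun i => ⟨h3 i, h4 i⟩⟩

theorem ctr_near {m n ρ : ℕ} (hn : 4 * m + 4 ≤ n) {x : Pt k} (hx : x ∈ fac k n ρ)
    {i : Fin (k + 2)} (hi : i ≠ 0) : |x i - ctr m n x i| ≤ m := by
  obtain ⟨_, _, h⟩ := mem_fac hx
  obtain ⟨h1, h2⟩ := h i
  rw [ctr_ne m n x hi, abs_le]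
  rcases le_total (x i) ((n : ℤ) - m) with h3 | h3
  · rw [min_eq_left h3]
    rcases le_total (m : ℤ) (x i) with h4 | h4
    · rw [max_eq_right h4]
      constructor <;> omega
    · rw [max_eq_left h4]
      constructor <;> omega
  · rw [min_eq_right h3, max_eq_right (by omega)]
    constructor <;> omega

theorem ctr_new {m n : ℕ} (hn : 4 * m + 4 ≤ n) (x : Pt k) :
    isNew m n (0 : Pt k) 0 (fun _ => 1) (ctr m n x) := by
  refine ⟨?_, fun i hi => ?_⟩
  · rw [ctr_zero, Pi.zero_apply]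
    ring
  · rw [ctr_ne m n x hi, Pi.zero_apply, one_mul, sub_zero]
    constructor
    · exact le_max_left _ _
    · exact max_le (by omega) (min_le_right _ _)

theorem box_sub {m n : ℕ} (hn : 4 * m + 4 ≤ n) (x : Pt k) :
    bx (ctr m n x) m ⊆ tgt m n (0 : Pt k) 0 (fun _ => 1) := by
  intro y hy
  rw [mem_bx] at hy
  have h0 := hy 0
  rw [ctr_zero, abs_le] at h0
  obtain ⟨_, hc⟩ := ctr_new hn x
  have hi : ∀ i : Fin (k + 2), i ≠ 0 → 0 ≤ y i ∧ y i ≤ n := by
    intro i hi
    have h1 := hy i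
    have h2 := hc i hi
    rw [abs_le] at h1
    rw [Pi.zero_apply, one_mul, sub_zero] at h2
    constructor <;> omega
  unfold tgt
  rw [Finset.mem_filter, mem_bx]
  refine ⟨fun i => ?_, ?_, fun i hne => ?_⟩
  · rw [Pi.zero_apply, sub_zero, abs_le]
    by_cases h : i = 0
    · subst h
      push_cast
      constructor <;> omega
    · have := hi i h
      push_cast
      constructor <;> omega
  · rw [Pi.zero_apply, one_mul, sub_zero]
    omega
  · rw [Pi.zero_apply, one_mul, sub_zero]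
    exact hi i hne

theorem disj_tgt (m n : ℕ) : Disjoint (bx (0 : Pt k) n) (tgt m n (0 : Pt k) 0 (fun _ => 1)) := by
  rw [Finset.disjoint_left]
  intro y hy hy'
  rw [mem_bx] at hy
  unfold tgt at hy'
  rw [Finset.mem_filter] at hy'
  have h1 := hy 0
  have h2 := hy'.2.1
  rw [Pi.zero_apply, sub_zero, abs_le] at h1
  rw [Pi.zero_apply, one_mul, sub_zero] at h2
  omega

theorem overlap {m n ρ : ℕ} (hρ : ρ ≤ m) (hn : 4 * m + 4 ≤ n) {x y : Pt k} (hx : x ∈ fac k n ρ)
    (hy : y ∈ fac k n ρ) (h : ¬ Disjoint (bx (ctr m n x) m) (bx (ctr m n y) m)) :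
    y ∈ bx x (4 * m) := by
  rw [Finset.not_disjoint_iff] at h
  obtain ⟨z, hz1, hz2⟩ := h
  rw [mem_bx] at hz1 hz2 ⊢
  intro i
  by_cases hi : i = 0
  · subst hi
    obtain ⟨h1, h2, _⟩ := mem_fac hx
    obtain ⟨h3, h4, _⟩ := mem_fac hy
    rw [abs_le]
    push_cast
    constructor <;> omega
  · have h1 := hz1 i
    have h2 := hz2 i
    have h3 := ctr_near hn hx hi
    have h4 := ctr_near hn hy hi
    rw [abs_le] at h1 h2 h3 h4 ⊢
    push_cast
    constructor <;> omega

/-- Attaching a full box to a hit boundary point. -/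
theorem seed_of_hit {N : Finset (Pt k)} {ρ m n : ℕ} (hN : GoodN N ρ) (hρ : ρ ≤ m)
    (hn : 4 * m + 4 ≤ n) {A : Finset (Pt k)} {x : Pt k} (hx : x ∈ fac k n ρ)
    (hH : Hit N m (A ∩ bx (0 : Pt k) n) x) (hA : bx (ctr m n x) m ⊆ A) :
    SeedEv N m n (0 : Pt k) 0 (fun _ => 1) A := by
  obtain ⟨s, hs, hc⟩ := hH
  obtain ⟨h1, h2, h3⟩ := mem_fac hx
  refine ⟨ctr m n x, ctr_new hn x, hA, s, hs, x, ?_, ?_, x + Pi.single 0 (ρ : ℤ), ?_, ?_⟩
  · rw [mem_bx]
    intro i
    have := h3 i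
    rw [Pi.zero_apply, sub_zero, abs_le]
    constructor <;> omega
  · exact hc
  · rw [mem_bx]
    intro i
    by_cases hi : i = 0
    · subst hi
      rw [ctr_zero, Pi.add_apply, Pi.single_eq_same, abs_le]
      constructor <;> omega
    · rw [Pi.add_apply, Pi.single_eq_of_ne hi, add_zero]
      exact ctr_near hn hx hi
  · rw [add_sub_cancel_left]
    exact hN.ax

theorem ats : AtsStmt := by
  classical
  intro k N ρ p hN hp0 hp1 η m hη hρ
  have hU : ∀ V : Finset (Pt k), U01 V (fun _ => p) := fun V _ _ => ⟨hp0.le, hp1.le⟩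
  set C : ℕ := (2 * m + 1) ^ (k + 2) with hC
  set Q : ℕ := (2 * (4 * m) + 1) ^ (k + 2) with hQ
  have hQ0 : 0 < Q := pow_pos (by omega) _
  have hc0 : 0 < p ^ C := pow_pos hp0 _
  have hc1 : p ^ C ≤ 1 := pow_le_one₀ hp0.le hp1.le
  obtain ⟨J, hJ⟩ := exists_pow_lt_of_lt_one hη (show 1 - p ^ C < 1 by linarith)
  refine ⟨J * Q, fun n hn => ?_⟩
  -- the event that many points are hit but no box is full
  have key : ∀ B : Finset (Pt k), J * Q ≤ cnt N m (fac k n ρ) B →
      PS (tgt m n (0 : Pt k) 0 (fun _ => 1)) (fun _ => p)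
        (fun D => ∀ x ∈ (fac k n ρ).filter (Hit N m B), ¬ bx (ctr m n x) m ⊆ D) ≤ η := by
    intro B hB
    refine (noFull (tgt m n (0 : Pt k) 0 (fun _ => 1)) p hp0 hp1 (fun x => bx (ctr m n x) m) C Q
      hQ0 J ((fac k n ρ).filter (Hit N m B)) (fun x _ => box_sub hn x)
      (fun x _ => card_bx _ _) (fun x hx => ?_) ?_).trans hJ.le
    · have h1 : ((fac k n ρ).filter (Hit N m B)).filter
          (fun y => ¬ Disjoint (bx (ctr m n x) m) (bx (ctr m n y) m)) ⊆ bx x (4 * m) := by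
        intro y hy
        rw [Finset.mem_filter] at hy
        exact overlap hρ hn (Finset.mem_filter.1 hx).1 (Finset.mem_filter.1 hy.1).1 hy.2
      refine (Finset.card_le_card h1).trans ?_
      rw [card_bx]
    · convert hB using 1
      unfold cnt
      congr
  have hwin : win m n (0 : Pt k) 0 (fun _ => 1) =
      bx (0 : Pt k) n ∪ tgt m n (0 : Pt k) 0 (fun _ => 1) := rfl
  have h1 : PS (bx (0 : Pt k) n) (fun _ => p) (fun A => J * Q ≤ cnt N m (fac k n ρ) A) =
      PS (win m n (0 : Pt k) 0 (fun _ => 1)) (fun _ => p)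
        (fun A => J * Q ≤ cnt N m (fac k n ρ) (A ∩ bx (0 : Pt k) n)) := by
    symm
    have h2 : bx (0 : Pt k) n ⊆ win m n (0 : Pt k) 0 (fun _ => 1) := Finset.subset_union_left
    rw [PS_marg h2 (fun _ => p) (fun A _ => by
      rw [Finset.inter_assoc, Finset.inter_self])]
    refine PS_congr (fun _ _ => rfl) fun A hA => ?_
    rw [Finset.inter_eq_left.2 hA]
  have h2 : PS (win m n (0 : Pt k) 0 (fun _ => 1)) (fun _ => p)
        (fun A => J * Q ≤ cnt N m (fac k n ρ) (A ∩ bx (0 : Pt k) n)) ≤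
      PS (win m n (0 : Pt k) 0 (fun _ => 1)) (fun _ => p)
        (fun A => SeedEv N m n 0 0 (fun _ => 1) A ∨
          (J * Q ≤ cnt N m (fac k n ρ) (A ∩ bx (0 : Pt k) n) ∧
            ∀ x ∈ (fac k n ρ).filter (Hit N m (A ∩ bx (0 : Pt k) n)),
              ¬ bx (ctr m n x) m ⊆ A ∩ tgt m n (0 : Pt k) 0 (fun _ => 1))) := by
    refine PS_mono (hU _) fun A _ hA => ?_
    by_cases h3 : ∀ x ∈ (fac k n ρ).filter (Hit N m (A ∩ bx (0 : Pt k) n)),
              ¬ bx (ctr m n x) m ⊆ A ∩ tgt m n (0 : Pt k) 0 (fun _ => 1)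
    · exact Or.inr ⟨hA, h3⟩
    · push Not at h3
      obtain ⟨x, hx, hx'⟩ := h3
      rw [Finset.mem_filter] at hx
      exact Or.inl (seed_of_hit hN hρ hn hx.1 hx.2 (hx'.trans Finset.inter_subset_left))
  have h3 := PS_or_le (hU (win m n (0 : Pt k) 0 (fun _ => 1)))
    (fun A => SeedEv N m n 0 0 (fun _ => 1) A)
    (fun A => J * Q ≤ cnt N m (fac k n ρ) (A ∩ bx (0 : Pt k) n) ∧
            ∀ x ∈ (fac k n ρ).filter (Hit N m (A ∩ bx (0 : Pt k) n)),
              ¬ bx (ctr m n x) m ⊆ A ∩ tgt m n (0 : Pt k) 0 (fun _ => 1))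
  have h4 : PS (win m n (0 : Pt k) 0 (fun _ => 1)) (fun _ => p)
      (fun A => J * Q ≤ cnt N m (fac k n ρ) (A ∩ bx (0 : Pt k) n) ∧
            ∀ x ∈ (fac k n ρ).filter (Hit N m (A ∩ bx (0 : Pt k) n)),
              ¬ bx (ctr m n x) m ⊆ A ∩ tgt m n (0 : Pt k) 0 (fun _ => 1)) ≤ η := by
    rw [PS_def, hwin, EX_union (disj_tgt m n) (fun _ => p) (fun B D =>
      if (J * Q ≤ cnt N m (fac k n ρ) B ∧ ∀ x ∈ (fac k n ρ).filter (Hit N m B),
        ¬ bx (ctr m n x) m ⊆ D) then (1 : ℝ) else 0)]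
    rw [← EX_const (bx (0 : Pt k) n) (fun _ => p) η]
    refine EX_mono (hU _) fun B _ => ?_
    by_cases hB : J * Q ≤ cnt N m (fac k n ρ) B
    · have h5 := key B hB
      rw [PS_def] at h5
      refine le_trans (le_of_eq ?_) h5
      refine EX_congr (fun _ _ => rfl) fun D _ => ?_
      by_cases h6 : ∀ x ∈ (fac k n ρ).filter (Hit N m B), ¬ bx (ctr m n x) m ⊆ D
      · rw [if_pos ⟨hB, h6⟩, if_pos h6]
      · rw [if_neg (fun h => h6 h.2), if_neg h6]
    · refine le_trans (le_of_eq ?_) hη.le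
      rw [EX_congr (q' := fun _ => p) (f' := fun _ => 0) (fun _ _ => rfl)
        (fun D _ => if_neg (fun h => hB h.1)), EX_const]
  rw [h1]
  linarith

end Pool.Agent.TP.H47
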